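import Pool.Agent.K7.H28.AF.EIso2

/-!
# MP_28b04d_gt, Q1: smoothing topological isotopies which are almost affine at small scales

Q1 asks whether every diffeomorphism of `CP²` that acts trivially on homology is smoothly isotopic
to the identity. By the theorems of Perron and Quinn such a diffeomorphism is isotopic to the
identity through homeomorphisms; the question is whether the path can be made smooth. The theorem
makes it smooth if it is almost affine at small scales in space and time. It is stated for all closed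
smooth manifolds `X` (for Q1 `X = Y = CP²`, `m = 4`).

Let `X` be a closed smooth manifold with a (finite) set `S` of smooth charts which cover `X`. There
is `ε₀ > 0`, which depends only on `X` and `S`, with the following property. Let `f_t : X → Y`,
`t` real, be a continuous path of bijections (hence of homeomorphisms) onto a smooth manifold `Y`.
Suppose that, near each point `(t, x)`, either `(t, x) ↦ (t, f_t x)` is a local diffeomorphism (the
path is a smooth isotopy there), or the path is almost affine at small scales with error `ε₀`: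

  for all `(s, p)` near `(t, x)` and all small `δ > 0` there are a linear isomorphism `L` and a
  vector `v` such that `L⁻¹ (f_{s'} q - f_s p)` differs from `(q - p) + (s' - s) v` by at most
  `ε₀ δ`, for all `(s', q)` with `|s' - s| ≤ δ` and `‖q - p‖ ≤ δ` (in the charts of `S` around `x`
  and in some smooth coordinates around `f_t x`).

`L` and `v` depend on `(s, p)` and `δ`, and there is no bound for `L`, its inverse and `v`: the
homeomorphisms need not be Lipschitz or quasiconformal, and the path need not be differentiable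
anywhere. Suppose that the path is a smooth isotopy near the times `t ≤ 0` and `t ≥ 1`. Then there
is a smooth isotopy `K_t`, with graph in a given neighbourhood of the graph of the path, such that
`K_t = f_t` for `t ≤ 0` and for `t ≥ 1`. In particular `f_0` and `f_1` are smoothly isotopic.
-/

set_option autoImplicit false

open Set Filter Topology Metric Function
open scoped Manifold ContDiff

noncomputable section

namespace Pool.Agent.Results.MP_28b04d_gt.AlmostAffineIsotopies

/-- `ℝ^m` -/
abbrev R (m : ℕ) : Type := EuclideanSpace ℝ (Fin m)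

variable (m : ℕ) {X Y : Type} [TopologicalSpace X] [ChartedSpace (R m) X] [TopologicalSpace Y]
  [ChartedSpace (R m) Y]

/-- `f` is a local diffeomorphism (of class `C^∞`, with smooth inverse) at `x` -/
def LocDiff (f : X → Y) (x : X) : Prop := IsLocalDiffeomorphAt (𝓡 m) (𝓡 m) ∞ f x

/-- the map `(t, x) ↦ (t, f (t, x))` is a local diffeomorphism at `(t, x)`: near `(t, x)` the path
`f` is a smooth path of local diffeomorphisms -/
def SmoothIsotopyAt (f : ℝ × X → Y) (t : ℝ) (x : X) : Prop :=
  IsLocalDiffeomorphAt ((𝓘(ℝ, ℝ)).prod (𝓡 m)) ((𝓘(ℝ, ℝ)).prod (𝓡 m)) ∞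
    (fun q : ℝ × X => (q.1, f q)) (t, x)

/-- The path `f` is almost affine at small scales near `(t, x)`, in space and time, with relative
error `ε`, in the chart `φ` around `x` and in some smooth coordinates `B` around `f (t, x)`. -/
def AlmostAffineAt (ε : ℝ) (φ : OpenPartialHomeomorph X (R m)) (f : ℝ × X → Y) (t : ℝ) (x : X) :
    Prop :=
  ∃ B : Y → R m, LocDiff m B (f (t, x)) ∧ ∃ r : ℝ, 0 < r ∧ ∀ (s : ℝ) (p : R m), |s - t| ≤ r →
    ‖p - φ x‖ ≤ r → ∀ δ : ℝ, 0 < δ → δ ≤ r → ∃ (L : R m ≃L[ℝ] R m) (v : R m), ∀ (s' : ℝ) (q : R m),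
      |s' - s| ≤ δ → ‖q - p‖ ≤ δ →
        ‖L.symm (B (f (s', φ.symm q)) - B (f (s, φ.symm p))) - (q - p) - (s' - s) • v‖ ≤ ε * δ

/-- `φ` is a diffeomorphism -/
def IsDiffeo (φ : X → Y) : Prop := ∃ Φ : X ≃ₘ^∞⟮𝓡 m, 𝓡 m⟯ Y, ∀ x, Φ x = φ x

/-- Topological isotopies which are almost affine at small scales, with an error which is small in
terms of the source and the charts used, can be smoothed relative to the ends. -/
theorem result (m : ℕ) (X : Type) [TopologicalSpace X] [T2Space X] [CompactSpace X]
    [ChartedSpace (R m) X] [IsManifold (𝓡 m) ∞ X] (S : Set (OpenPartialHomeomorph X (R m)))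
    (hS : ∀ φ ∈ S, φ ∈ IsManifold.maximalAtlas (𝓡 m) ∞ X) (hcov : ∀ x, ∃ φ ∈ S, x ∈ φ.source) :
    ∃ ε₀ : ℝ, 0 < ε₀ ∧ ∀ (Y : Type) [TopologicalSpace Y] [T2Space Y] [ChartedSpace (R m) Y]
      [IsManifold (𝓡 m) ∞ Y] (f : ℝ × X → Y), Continuous f →
      (∀ t, Bijective fun x => f (t, x)) →
      (∀ t x, t ≤ 0 ∨ 1 ≤ t → SmoothIsotopyAt m f t x) →
      (∀ t x, SmoothIsotopyAt m f t x ∨
        ∀ φ ∈ S, x ∈ φ.source → AlmostAffineAt m ε₀ φ f t x) →
      ∀ O : Set ((ℝ × X) × Y), IsOpen O → (∀ q, (q, f q) ∈ O) →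
        ∃ K : ℝ × X → Y, ContMDiff ((𝓘(ℝ, ℝ)).prod (𝓡 m)) (𝓡 m) ∞ K ∧
          (∀ t, IsDiffeo m fun x => K (t, x)) ∧
          (∀ t x, t ≤ 0 ∨ 1 ≤ t → K (t, x) = f (t, x)) ∧ ∀ q, (q, K q) ∈ O := by
  obtain ⟨ε₀, hε₀, hmain⟩ := Pool.Agent.K7.H28.AF.almostAffineIsotopy m X S hS hcov
  refine ⟨ε₀, hε₀, ?_⟩
  intro Y _ _ _ _ f hf hb hends hx O hO hfO
  obtain ⟨K, k1, k2, k3, k4, k5⟩ := hmain Y f O hf hb
    (fun t x htx => Pool.Agent.K7.H28.AF.LD_lft_of (hends t x htx))
    (by
      intro t x
      rcases hx t x with h | h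
      · exact Or.inl (Pool.Agent.K7.H28.AF.LD_lft_of h)
      · refine Or.inr fun φ hφ hxφ => ?_
        obtain ⟨B, hB, r, hr, h1⟩ := h φ hφ hxφ
        exact ⟨B, hB, Pool.Agent.K7.H28.AF.ea_of_family
          (g := fun z : ℝ × R m => B (f (z.1, φ.symm z.2))) hr h1⟩)
    hO hfO
  refine ⟨K, k1, fun t => ?_, k4, k5⟩
  have hl : IsLocalDiffeomorph (𝓡 m) (𝓡 m) ∞ (fun x => K (t, x)) := k3 t
  exact ⟨hl.diffeomorphOfBijective (k2 t), fun x => rfl⟩

end Pool.Agent.Results.MP_28b04d_gt.AlmostAffineIsotopies
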