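import Mathlib
import Pool.Agent.K7.H28.SB.BridgeR

/-!
# MP_28b04d_gt, Q1: paths of symplectic forms and bounded paths on the product with `R^q`

By the theorems of Taubes and Gromov quoted in the problem, Q1 has a positive answer if and only if
the Fubini-Study form `ω` of `CP²` and `φ^* ω`, for every diffeomorphism `φ` acting trivially on the
homology, are joined by a path of symplectic forms. (The classes of the forms of such a path are
nonzero multiples of the class of `ω`, as the second Betti number is one, so that one may normalise
them to be constant.)

On the open manifold `CP² × R^q`, `q` even, the stabilized forms `ω ⊕ J` and `φ^* ω ⊕ J`, where `J` is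
a linear symplectic form of `R^q`, are subject to the h-principle of Gromov: paths of symplectic
forms between them exist as soon as they are homotopic as nondegenerate forms. Such paths are not
bounded along `R^q` in general. The theorem says that boundedness is all what is at stake: on closed
connected manifolds `X`, on which every closed one-form has a zero (for instance on manifolds with
nonzero Euler characteristic, such as `CP²`), two two-forms `τ₀` and `τ₁` are the ends of a smooth path
of symplectic forms if and only if `τ₀ ⊕ J` and `τ₁ ⊕ J` are the ends of a path of closed two-forms on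
`X × R^q`, which are bounded with all their derivatives, and nondegenerate, uniformly along `R^q`,
and depend continuously on time, uniformly along `R^q`.

The proof averages the forms over `R^q` by an invariant mean. The average is a closed form with
constant coefficients along `R^q`, and its coefficients in the directions of `R^q` do not depend on
the point of `X`; if they formed a singular matrix, a null vector would give a closed one-form
without zeros. So the Schur complement of the average gives a symplectic form on `X`, which depends
continuously on time. The path is then smoothed in time.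
-/

set_option autoImplicit false

open Set Filter Topology
open scoped Manifold ContDiff

namespace Pool.Agent.Results.MP_28b04d_gt.BoundedPaths

open Pool.Agent.Y501.SYP
open Pool.Agent.K7.H28.STP
open Pool.Agent.K7.H28.SPP
open Pool.Agent.K7.H28.SBP

theorem result (d q : ℕ) (X : Type) [TopologicalSpace X] [ChartedSpace (ES d) X]
    [IsManifold 𝓘(ℝ, ES d) ∞ X] [CompactSpace X] [ConnectedSpace X]
    (hX : ∀ β : Form (ES d) X 1, IsSmooth β → IsClosedForm β → ∃ x, β x = 0)
    (J : Matrix (Fin q) (Fin q) ℝ) (hJ : J.transpose = -J) (hJd : J.det ≠ 0)
    (τ₀ τ₁ : Form (ES d) X 2) :
    (∃ τ : ℝ → Form (ES d) X 2, SmoothPath τ ∧ (∀ t ∈ Icc (0 : ℝ) 1, IsSymplectic (τ t)) ∧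
      τ 0 = τ₀ ∧ τ 1 = τ₁) ↔
    ∃ w : ℝ → PForm (ES d) (ES q) X, UnifContPath w ∧
      (∀ t ∈ Icc (0 : ℝ) 1, IsBddClosed (w t) ∧ UnifNondeg (w t)) ∧
      IsSum τ₀ J (w 0) ∧ IsSum τ₁ J (w 1) :=
  boundedPaths hX J hJ hJd τ₀ τ₁

end Pool.Agent.Results.MP_28b04d_gt.BoundedPaths
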