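import Mathlib
import Pool.Agent.K7.H28.SP.BridgeP

/-!
# MP_28b04d_gt, Q1: paths of symplectic forms from paths of weakly tamed almost complex structures

By the theorems of Taubes and Gromov quoted in the problem, Q1 has a positive answer if and only if
any two cohomologous symplectic forms on `CP²` are joined by a path of cohomologous symplectic
forms. The theorem is a criterion for this, on closed manifolds `X` of any dimension (for Q1:
`X = CP²`).

Let `J t`, `0 ≤ t ≤ 1`, be a continuous path of almost complex structures, and `σ₀` a smooth closed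
two-form. Let `σ₀ + ρ₀` and `σ₀ + ρ₁` be symplectic forms which tame `J 0` and `J 1`, with `ρ₀` and
`ρ₁` exact. Suppose that, for all `0 < t < 1`, the class of `σ₀` contains a singular form which is
weakly taming for `J t`, in one of the two following senses; the forms for different `t` need not
be related in any way.

* `SingularlyTamed`: `σ = σ₀ + dβ` off a closed set `K` of box dimension at most `k`, where
  `|β| ≤ C dist(·, K) ^ (-q)`, `k < 2`, `k + q < 1`, and `σ (v, J v) ≥ 0`; the components of the set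
  where `σ` does not tame `J` are contained in `K` or small.
* `ContinuouslyTamed`: `J t` is of class `C¹`, and `σ = σ₀ + dβ` off a closed set `K` whose
  `(d - 1)`-dimensional Hausdorff measure is zero, `β` is continuous on `X`, and `σ (v, J v) ≥ 0`; the
  components of the set near which `σ` is not uniformly taming are small.

Then there is a smooth path `ρ t` of exact forms, with smooth primitives `α t`, from `ρ₀` to `ρ₁`,
such that `σ₀ + ρ t` is symplectic and tames `J t` for all `0 ≤ t ≤ 1`.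

If `φ` is a diffeomorphism of `CP²` as in Q1, `ω` is the Fubini-Study form and `J 1 = φ^* (J 0)`,
where `J 0` is the standard structure, then `ρ₁ = φ^* ω - ω`. By the theorems of Moser and Gromov
`φ` is then smoothly isotopic to the identity.
-/

set_option autoImplicit false

open Set MeasureTheory
open scoped Manifold ContDiff

namespace Pool.Agent.Results.MP_28b04d_gt.PathOfStructures

open Pool.Agent.Y501.SYP
open Pool.Agent.K7.H28.SYP
open Pool.Agent.K7.H28.SCP
open Pool.Agent.K7.H28.SPP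

theorem result (d : ℕ) (hd : 1 ≤ d) (X : Type) [TopologicalSpace X] [ChartedSpace (ES d) X]
    [IsManifold 𝓘(ℝ, ES d) ∞ X] [CompactSpace X] [T2Space X]
    (J : ℝ → End (ES d) X) (hJ : ∀ t ∈ Icc (0 : ℝ) 1, IsAlmostComplex (J t)) (hJc : ContPath J)
    (σ₀ : Form (ES d) X 2) (hσ₀ : IsSmooth σ₀) (hσ₀c : IsClosedForm σ₀)
    (α₀ α₁ : Form (ES d) X 1) (ρ₀ ρ₁ : Form (ES d) X 2)
    (hα₀ : IsSmooth α₀) (hρ₀ : IsSmooth ρ₀) (hd₀ : IsD α₀ ρ₀)
    (ht₀ : IsTamingSymplectic (addF σ₀ ρ₀) (J 0))
    (hα₁ : IsSmooth α₁) (hρ₁ : IsSmooth ρ₁) (hd₁ : IsD α₁ ρ₁)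
    (ht₁ : IsTamingSymplectic (addF σ₀ ρ₁) (J 1))
    (hw : ∀ t ∈ Ioo (0 : ℝ) 1, SingularlyTamed (J t) σ₀ ∨ ContinuouslyTamed (J t) σ₀) :
    ∃ (α : ℝ → Form (ES d) X 1) (ρ : ℝ → Form (ES d) X 2), SmoothPath α ∧ SmoothPath ρ ∧
      (∀ t, IsD (α t) (ρ t)) ∧
      (∀ t ∈ Icc (0 : ℝ) 1, IsTamingSymplectic (addF σ₀ (ρ t)) (J t)) ∧
      α 0 = α₀ ∧ ρ 0 = ρ₀ ∧ α 1 = α₁ ∧ ρ 1 = ρ₁ :=
  pathOfStructures hd J hJ hJc σ₀ hσ₀ hσ₀c α₀ α₁ ρ₀ ρ₁ hα₀ hρ₀ hd₀ ht₀ hα₁ hρ₁ hd₁ ht₁ hw

end Pool.Agent.Results.MP_28b04d_gt.PathOfStructures
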