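import Mathlib
import Pool.Agent.K7.H28.SP.BridgeQ

/-!
# MP_28b04d_gt, Q1: when can a path of closed two-forms be made symplectic

By the theorems of Taubes and Gromov quoted in the problem, Q1 has a positive answer if and only if
any two cohomologous symplectic forms on `CP²` are joined by a path of cohomologous symplectic
forms. The theorem decides, on closed manifolds `X` of dimension `2 (m + 1)` (for Q1 `X = CP²`,
`m = 1`), when a given path `σ t` of closed two-forms, `0 ≤ t ≤ 1`, with symplectic ends, can be
made symplectic by adding forms from a linear family of exact forms of rank two. Nothing is assumed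
about the degeneracy of `σ t` and the sign of `σ t ^ (m + 1)` for `0 < t < 1`.

The linear family is a map `Φ t w`, linear in the element `w` of a real vector space `W`. For
instance let `W` be the space of the smooth functions on `X` and `Φ t w = du_t ∧ dw`, where `u_t` is a
smooth path of functions (one fixed function, for instance).

There is a path `w t` in `W`, with `w 0 = w 1 = 0`, such that the forms `Φ t (w t)` are a smooth path
and the forms `σ t + Φ t (w t)` are symplectic for `0 ≤ t ≤ 1`, if and only if for all `0 ≤ t ≤ 1`
every Borel probability measure on `X`, which annihilates the densities of the forms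
`Φ t w ∧ σ t ^ m` for all `w` in `W`, has a positive integral over the density of `σ t ^ (m + 1)`.

In the example the condition on the measure is that it is invariant under the flow of the vector
field `Z` with `ι_Z vol = du_t ∧ σ t ^ m`.

Since the forms `Φ t w` are exact the new path is a path in the classes of the forms `σ t`. So if the
path `σ t` consists of closed forms in the class of the Fubini-Study form `ω = σ 0`, if
`σ 1 = φ^* ω` for a diffeomorphism `φ` as in Q1, and if the condition holds, then `φ` is smoothly
isotopic to the identity by the theorems of Moser and Gromov.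
-/

set_option autoImplicit false

open Set MeasureTheory
open scoped Manifold ContDiff

namespace Pool.Agent.Results.MP_28b04d_gt.TransportPaths

open Pool.Agent.Y501.SYP
open Pool.Agent.R772.SYK
open Pool.Agent.K7.H28.SMP
open Pool.Agent.K7.H28.SPP
open Pool.Agent.K7.H28.SQP

theorem result (m d : ℕ) (hd : d = 2 * (m + 1)) (X : Type) [TopologicalSpace X]
    [ChartedSpace (ES d) X] [IsManifold 𝓘(ℝ, ES d) ∞ X] [CompactSpace X] [T2Space X]
    [MeasurableSpace X] [BorelSpace X] (vol : TopForm (ES d) X m) (hvol : IsVolume vol)
    (W : Type) [AddCommGroup W] [Module ℝ W] (σ : ℝ → Form (ES d) X 2) (hσ : IsClosedPath σ)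
    (Φ : ℝ → W → Form (ES d) X 2) (hΦ : IsLinearFamily Φ)
    (h0 : IsPosSymplectic vol (σ 0)) (h1 : IsPosSymplectic vol (σ 1)) :
    (∃ w : ℝ → W, w 0 = 0 ∧ w 1 = 0 ∧ SmoothPath (fun t => Φ t (w t)) ∧
      ∀ t ∈ Icc (0 : ℝ) 1, IsPosSymplectic vol (addF (σ t) (Φ t (w t)))) ↔
    ∀ t ∈ Icc (0 : ℝ) 1, ∀ μ : Measure X, IsProbabilityMeasure μ →
      (∀ w : W, ∫ x, mixDens vol (σ t) (Φ t w) x ∂μ = 0) → 0 < ∫ x, topDens vol (σ t) x ∂μ :=
  transportPaths hd vol hvol σ hσ Φ hΦ h0 h1

end Pool.Agent.Results.MP_28b04d_gt.TransportPaths
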